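import Pool.Agent.H983Z.Peak.Model

set_option autoImplicit false

namespace Pool.Agent.H983Z.Peak

open Finset Polynomial

/-! ### Bernstein expansions -/

noncomputable def bern (n : ℕ) (x : ℕ → ℝ) : ℝ[X] :=
  ∑ k ∈ range (n + 1), C (x k) * bernsteinPolynomial ℝ n k

lemma bern_deriv (n : ℕ) (x : ℕ → ℝ) :
    derivative (bern (n + 1) x) = (n + 1 : ℝ[X]) * bern n (fun j => x (j + 1) - x j) := by
  unfold bern
  rw [derivative_sum, sum_range_succ']
  simp only [derivative_mul, derivative_C, zero_mul, zero_add, bernsteinPolynomial.derivative_succ,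
    bernsteinPolynomial.derivative_zero, Nat.add_sub_cancel]
  have e : ∑ k ∈ range (n + 1), C (x k) * bernsteinPolynomial ℝ n k =
      ∑ k ∈ range (n + 1), C (x (k + 1)) * bernsteinPolynomial ℝ n (k + 1) +
        C (x 0) * bernsteinPolynomial ℝ n 0 := by
    rw [← sum_range_succ' (fun k => C (x k) * bernsteinPolynomial ℝ n k), sum_range_succ _ (n + 1),
      bernsteinPolynomial.eq_zero_of_lt ℝ (Nat.lt_succ_self n)]
    simp
  simp only [map_sub, sub_mul, sum_sub_distrib, e, mul_sub, mul_add, mul_sum]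
  push_cast
  simp only [mul_left_comm (C (x _)) ((n : ℝ[X]) + 1)]
  ring

lemma bern_zero (n : ℕ) (x : ℕ → ℝ) : (bern n x).eval 0 = x 0 := by
  unfold bern
  simp [eval_finset_sum, bernsteinPolynomial.eval_at_0]

lemma bern_one (n : ℕ) (x : ℕ → ℝ) : (bern n x).eval 1 = x n := by
  unfold bern
  simp [eval_finset_sum, bernsteinPolynomial.eval_at_1]

lemma bern_congr (n : ℕ) {x y : ℕ → ℝ} (h : ∀ k, k ≤ n → x k = y k) : bern n x = bern n y := by
  unfold bern
  apply sum_congr rfl
  intro k hk
  rw [h k (by have := mem_range.mp hk; omega)]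

lemma bern_add (n : ℕ) (x y : ℕ → ℝ) : bern n (fun k => x k + y k) = bern n x + bern n y := by
  unfold bern
  simp [add_mul, sum_add_distrib]

lemma bern_sub (n : ℕ) (x y : ℕ → ℝ) : bern n (fun k => x k - y k) = bern n x - bern n y := by
  unfold bern
  simp [sub_mul, sum_sub_distrib]

lemma bern_neg (n : ℕ) (x : ℕ → ℝ) : bern n (fun k => - x k) = - bern n x := by
  unfold bern
  simp [sum_neg_distrib]

lemma bern_flip (n : ℕ) (x : ℕ → ℝ) : bern n (fun k => x (n - k)) = (bern n x).comp (1 - X) := by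
  unfold bern
  rw [← sum_range_reflect (fun k => C (x k) * bernsteinPolynomial ℝ n k) (n + 1),
    Polynomial.sum_comp]
  apply sum_congr rfl
  intro k hk
  have hk' := mem_range.mp hk
  rw [mul_comp, C_comp, bernsteinPolynomial.flip ℝ _ _ (by omega),
    show n + 1 - 1 - k = n - k by omega, show n - (n - k) = k by omega]

lemma poly_ext {p q : ℝ[X]} (a : ℝ) (h1 : derivative p = derivative q)
    (h2 : p.eval a = q.eval a) : p = q := by
  have h3 : derivative (p - q) = 0 := by rw [derivative_sub, h1, sub_self]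
  have h4 := eq_C_of_derivative_eq_zero h3
  have h5 : (p - q).eval a = 0 := by rw [eval_sub, h2, sub_self]
  rw [h4, eval_C] at h5
  rw [h5, map_zero] at h4
  exact sub_eq_zero.mp h4

/-! ### Permutations -/

def pv {n : ℕ} (π : Equiv.Perm (Fin n)) (i : ℕ) : ℕ := if h : i < n then (π ⟨i, h⟩ : ℕ) else 0

def Valid (S : Finset ℕ) {n : ℕ} (π : Equiv.Perm (Fin n)) : Prop :=
  ∀ j, j + 1 < n → (j + 1 ∈ S ↔ 0 < j ∧ pv π (j - 1) < pv π j ∧ pv π (j + 1) < pv π j)

def Upp {n : ℕ} (π : Equiv.Perm (Fin (n + 1))) : Prop := 0 < n ∧ pv π (n - 1) < pv π n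

def ext {n : ℕ} (x : Equiv.Perm (Fin n) × Fin (n + 1)) : Equiv.Perm (Fin (n + 1)) :=
  finSuccEquivLast.trans ((Equiv.optionCongr x.1).trans (finSuccEquiv' x.2).symm)

lemma ext_cast {n : ℕ} (x : Equiv.Perm (Fin n) × Fin (n + 1)) (j : Fin n) :
    ext x j.castSucc = x.2.succAbove (x.1 j) := by simp [ext]

lemma ext_last {n : ℕ} (x : Equiv.Perm (Fin n) × Fin (n + 1)) : ext x (Fin.last n) = x.2 := by
  simp [ext]

lemma ext_bij (n : ℕ) : Function.Bijective (ext (n := n)) := by
  rw [Fintype.bijective_iff_injective_and_card]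
  constructor
  · rintro ⟨π, a⟩ ⟨ρ, b⟩ h
    have h1 : a = b := by
      have := ext_last (π, a); rw [h, ext_last] at this; exact this.symm
    subst h1
    congr 1
    ext j
    have := ext_cast (π, a) j
    rw [h, ext_cast] at this
    have h2 := Fin.succAbove_right_injective this
    exact congrArg Fin.val h2.symm
  · simp [Fintype.card_perm, Nat.factorial_succ, mul_comm]

lemma pv_lt {n : ℕ} (π : Equiv.Perm (Fin n)) {i : ℕ} (h : i < n) : pv π i < n := by
  simp [pv, h]

lemma pv_ext_last {n : ℕ} (π : Equiv.Perm (Fin n)) (a : Fin (n + 1)) :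
    pv (ext (π, a)) n = a := by
  have := ext_last (π, a)
  simp only [pv, Nat.lt_succ_self, dif_pos]
  exact congrArg Fin.val this

lemma pv_ext {n : ℕ} (π : Equiv.Perm (Fin n)) (a : Fin (n + 1)) {i : ℕ} (h : i < n) :
    pv (ext (π, a)) i = if pv π i < a then pv π i else pv π i + 1 := by
  have := ext_cast (π, a) ⟨i, h⟩
  have h' : i < n + 1 := by omega
  simp only [pv, h, h', dif_pos]
  have e : (⟨i, h'⟩ : Fin (n + 1)) = Fin.castSucc ⟨i, h⟩ := rfl
  rw [e, this, Fin.succAbove]
  by_cases hc : (π ⟨i, h⟩ : ℕ) < a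
  · rw [if_pos (by exact hc), if_pos hc]; rfl
  · rw [if_neg (by exact hc), if_neg hc]; rfl

lemma pv_ext_lt {n : ℕ} (π : Equiv.Perm (Fin n)) (a : Fin (n + 1)) {i j : ℕ} (hi : i < n)
    (hj : j < n) : pv (ext (π, a)) i < pv (ext (π, a)) j ↔ pv π i < pv π j := by
  rw [pv_ext π a hi, pv_ext π a hj]
  split_ifs <;> omega

lemma upp_ext {n : ℕ} (π : Equiv.Perm (Fin (n + 1))) (a : Fin (n + 2)) :
    Upp (ext (π, a)) ↔ pv π n < a := by
  unfold Upp
  rw [pv_ext_last, Nat.add_sub_cancel, pv_ext π a (Nat.lt_succ_self n)]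
  split_ifs <;> omega

lemma valid_ext (S : Finset ℕ) {n : ℕ} (π : Equiv.Perm (Fin (n + 1))) (a : Fin (n + 2)) :
    Valid S (ext (π, a)) ↔ Valid S π ∧ (n + 1 ∈ S ↔ Upp π ∧ (a : ℕ) ≤ pv π n) := by
  have key : (0 < n ∧ pv (ext (π, a)) (n - 1) < pv (ext (π, a)) n ∧
      pv (ext (π, a)) (n + 1) < pv (ext (π, a)) n) ↔ Upp π ∧ (a : ℕ) ≤ pv π n := by
    rw [pv_ext_lt π a (by omega) (by omega), pv_ext_last, pv_ext π a (Nat.lt_succ_self n)]
    unfold Upp
    split_ifs <;> omega
  constructor
  · intro h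
    refine ⟨fun j hj => ?_, ?_⟩
    · rw [h j (by omega), pv_ext_lt π a (by omega) (by omega), pv_ext_lt π a (by omega) (by omega)]
    · rw [h n (by omega), key]
  · rintro ⟨h1, h2⟩ j hj
    by_cases hjn : j = n
    · subst hjn; rw [key]; exact h2
    · rw [h1 j (by omega), pv_ext_lt π a (by omega) (by omega),
        pv_ext_lt π a (by omega) (by omega)]

open Classical in
noncomputable def UU (S : Finset ℕ) (n a : ℕ) : ℝ :=
  ∑ π : Equiv.Perm (Fin (n + 1)), if Valid S π ∧ Upp π ∧ pv π n = a then 1 else 0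

open Classical in
noncomputable def DD (S : Finset ℕ) (n a : ℕ) : ℝ :=
  ∑ π : Equiv.Perm (Fin (n + 1)), if Valid S π ∧ ¬ Upp π ∧ pv π n = a then 1 else 0

variable (S : Finset ℕ)

open Classical in
lemma UU_succ (n a : ℕ) (ha : a ≤ n + 1) : UU S (n + 1) a =
    ∑ π : Equiv.Perm (Fin (n + 1)), if Valid S π ∧ n + 1 ∉ S ∧ pv π n < a then 1 else 0 := by
  unfold UU
  rw [← (ext_bij (n + 1)).sum_comp, Fintype.sum_prod_type]
  apply sum_congr rfl
  intro π _
  rw [sum_eq_single (⟨a, by omega⟩ : Fin (n + 2))]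
  · rw [valid_ext, upp_ext, pv_ext_last]
    congr 1
    apply propext
    constructor
    · rintro ⟨⟨h1, h2⟩, h3, -⟩
      refine ⟨h1, fun h => ?_, h3⟩
      have := (h2.mp h).2
      simp only at this h3
      omega
    · rintro ⟨h1, h2, h3⟩
      refine ⟨⟨h1, ⟨fun h => absurd h h2, fun h => ?_⟩⟩, h3, rfl⟩
      have := h.2
      simp only at this
      omega
  · intro b _ hb
    rw [if_neg]
    rintro ⟨-, -, h⟩
    rw [pv_ext_last] at h
    exact hb (Fin.ext h)
  · simp

open Classical in
lemma DD_succ (n a : ℕ) (ha : a ≤ n + 1) : DD S (n + 1) a =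
    ∑ π : Equiv.Perm (Fin (n + 1)),
      if Valid S π ∧ (n + 1 ∈ S ↔ Upp π) ∧ a ≤ pv π n then 1 else 0 := by
  unfold DD
  rw [← (ext_bij (n + 1)).sum_comp, Fintype.sum_prod_type]
  apply sum_congr rfl
  intro π _
  rw [sum_eq_single (⟨a, by omega⟩ : Fin (n + 2))]
  · rw [valid_ext, upp_ext, pv_ext_last]
    congr 1
    apply propext
    simp only [not_lt]
    tauto
  · intro b _ hb
    rw [if_neg]
    rintro ⟨-, -, h⟩
    rw [pv_ext_last] at h
    exact hb (Fin.ext h)
  · simp

lemma UU_succ_zero (n : ℕ) : UU S (n + 1) 0 = 0 := by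
  rw [UU_succ S n 0 (by omega)]; simp

lemma DD_succ_last (n : ℕ) : DD S (n + 1) (n + 1) = 0 := by
  rw [DD_succ S n _ le_rfl]
  apply sum_eq_zero
  intro π _
  have := pv_lt π (Nat.lt_succ_self n)
  rw [if_neg]
  rintro ⟨-, -, h⟩
  omega

lemma UU_diff (n a : ℕ) (ha : a ≤ n) : UU S (n + 1) (a + 1) - UU S (n + 1) a =
    if n + 1 ∈ S then 0 else UU S n a + DD S n a := by
  rw [UU_succ S n _ (by omega), UU_succ S n _ (by omega), ← sum_sub_distrib]
  by_cases h : n + 1 ∈ S
  · simp [h]
  · rw [if_neg h]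
    unfold UU DD
    rw [← sum_add_distrib]
    apply sum_congr rfl
    intro π _
    by_cases h1 : Valid S π <;> by_cases h2 : Upp π <;>
      simp only [h, h1, h2, true_and, false_and, not_true, not_false_iff, if_false] <;>
      (try split_ifs) <;> first | omega | norm_num

lemma DD_diff (n a : ℕ) (ha : a ≤ n) : DD S (n + 1) (a + 1) - DD S (n + 1) a =
    - (if n + 1 ∈ S then UU S n a else DD S n a) := by
  rw [DD_succ S n _ (by omega), DD_succ S n _ (by omega), ← sum_sub_distrib]
  by_cases h : n + 1 ∈ S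
  · rw [if_pos h]
    unfold UU
    rw [← sum_neg_distrib]
    apply sum_congr rfl
    intro π _
    by_cases h1 : Valid S π <;> by_cases h2 : Upp π <;>
      simp only [h, h1, h2, true_and, false_and, and_false, not_true, not_false_iff, if_false,
        iff_self, true_iff, false_iff] <;>
      (try split_ifs) <;> first | omega | norm_num
  · rw [if_neg h]
    unfold DD
    rw [← sum_neg_distrib]
    apply sum_congr rfl
    intro π _
    by_cases h1 : Valid S π <;> by_cases h2 : Upp π <;>
      simp only [h, h1, h2, true_and, false_and, and_false, not_true, not_false_iff, if_false,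
        iff_self, true_iff, false_iff] <;>
      (try split_ifs) <;> first | omega | norm_num

lemma UU_zero : UU S 0 0 = 0 := by simp [UU, Upp]

lemma DD_zero : DD S 0 0 = 1 := by
  have : ∀ π : Equiv.Perm (Fin (0 + 1)), Valid S π ∧ ¬ Upp π ∧ pv π 0 = 0 := by
    intro π
    refine ⟨fun j hj => by omega, by simp [Upp], ?_⟩
    have := pv_lt π (Nat.lt_succ_self 0)
    omega
  simp [DD, this]

noncomputable def Lp : ℝ[X] := C (1 / 2) * (1 + X)
noncomputable def Lm : ℝ[X] := C (1 / 2) * (1 - X)

lemma c_diff (n j : ℕ) : c S (n + 1) (j + 1) - c S (n + 1) j =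
    if n + 1 ∈ S then c S n (n - j) - c S n j else c S n j := by
  simp only [c, sum_range_succ, add_sub_cancel_left]

lemma link (n : ℕ) :
    C ((2 : ℝ) ^ (S.filter (fun i => 0 < i ∧ i ≤ n)).card) * bern n (DD S n) =
        C (2 ^ n) * (bern n (c S n)).comp Lm ∧
      C ((2 : ℝ) ^ (S.filter (fun i => 0 < i ∧ i ≤ n)).card) *
          (2 * bern n (UU S n) + bern n (DD S n)) = C (2 ^ n) * (bern n (c S n)).comp Lp := by
  have dm : derivative Lm = - C (1 / 2) := by simp [Lm]
  have dp : derivative Lp = C (1 / 2) := by simp [Lp]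
  have h2 : (C (2 : ℝ) : ℝ[X]) = 2 := rfl
  have hh : (2 : ℝ[X]) * C (1 / 2) = 1 := by rw [← h2, ← C_mul]; norm_num
  have fm : (1 - X : ℝ[X]).comp Lm = Lp := by
    simp only [sub_comp, one_comp, X_comp, Lm, Lp]; linear_combination -hh
  have fp : (1 - X : ℝ[X]).comp Lp = Lm := by
    simp only [sub_comp, one_comp, X_comp, Lm, Lp]; linear_combination -hh
  induction n with
  | zero =>
    have : S.filter (fun i => 0 < i ∧ i ≤ 0) = ∅ := by
      apply filter_eq_empty_iff.mpr; intro i _; omega
    rw [this]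
    simp [bern, UU_zero, DD_zero, c, bernsteinPolynomial]
  | succ n ih =>
    obtain ⟨ih1, ih2⟩ := ih
    set K := (S.filter (fun i => 0 < i ∧ i ≤ n)).card with hK
    have dU := bern_deriv n (UU S (n + 1))
    have dD := bern_deriv n (DD S (n + 1))
    have dc := bern_deriv n (c S (n + 1))
    rw [bern_congr n (UU_diff S n)] at dU
    rw [bern_congr n (DD_diff S n), bern_neg] at dD
    rw [bern_congr n (fun j _ => c_diff S n j)] at dc
    have first : ∀ (K' : ℕ), derivative (C ((2 : ℝ) ^ K') * bern (n + 1) (DD S (n + 1))) =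
        derivative (C (2 ^ (n + 1)) * (bern (n + 1) (c S (n + 1))).comp Lm) →
        C ((2 : ℝ) ^ K') * bern (n + 1) (DD S (n + 1)) =
          C (2 ^ (n + 1)) * (bern (n + 1) (c S (n + 1))).comp Lm := by
      intro K' hd
      apply poly_ext 1 hd
      simp [eval_comp, Lm, bern_one, bern_zero, DD_succ_last, c]
    have second : ∀ (K' : ℕ), C ((2 : ℝ) ^ K') * bern (n + 1) (DD S (n + 1)) =
          C (2 ^ (n + 1)) * (bern (n + 1) (c S (n + 1))).comp Lm →
        derivative (C ((2 : ℝ) ^ K') *
          (2 * bern (n + 1) (UU S (n + 1)) + bern (n + 1) (DD S (n + 1)))) =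
        derivative (C (2 ^ (n + 1)) * (bern (n + 1) (c S (n + 1))).comp Lp) →
        C ((2 : ℝ) ^ K') * (2 * bern (n + 1) (UU S (n + 1)) + bern (n + 1) (DD S (n + 1))) =
          C (2 ^ (n + 1)) * (bern (n + 1) (c S (n + 1))).comp Lp := by
      intro K' h1 hd
      apply poly_ext 0 hd
      have := congrArg (eval 0) h1
      simp only [eval_mul, eval_C, eval_comp, Lm, Lp, eval_add, eval_sub, eval_X, eval_one,
        bern_zero, UU_succ_zero, sub_zero, add_zero, mul_zero, zero_add] at this ⊢
      exact this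
    by_cases h : n + 1 ∈ S
    · have hK' : (S.filter (fun i => 0 < i ∧ i ≤ n + 1)).card = K + 1 := by
        have : S.filter (fun i => 0 < i ∧ i ≤ n + 1) =
            insert (n + 1) (S.filter (fun i => 0 < i ∧ i ≤ n)) := by
          ext i
          simp only [mem_filter, mem_insert]
          constructor
          · rintro ⟨h1, h3, h4⟩
            by_cases h5 : i = n + 1
            · exact Or.inl h5
            · exact Or.inr ⟨h1, h3, by omega⟩
          · rintro (rfl | ⟨h1, h3, h4⟩)
            · exact ⟨h, by omega, le_rfl⟩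
            · exact ⟨h1, h3, by omega⟩
        rw [this, card_insert_of_notMem (by simp)]
      simp only [h, if_true] at dU dD dc
      rw [bern_sub, bern_flip] at dc
      have z0 : bern n (fun _ => 0) = 0 := by simp [bern]
      rw [z0] at dU
      rw [hK']
      have f1 := first (K + 1) (by
        simp only [derivative_mul, derivative_C, zero_mul, zero_add, derivative_comp, dD, dc, dm,
          mul_comp, sub_comp, add_comp, natCast_comp, one_comp, comp_assoc, pow_succ, C_mul, h2,
          derivative_ofNat]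
        have fm' := fm
        simp only [sub_comp, one_comp] at fm'
        rw [fm']
        linear_combination (n + 1 : ℝ[X]) * (ih1 - ih2) +
          (n + 1 : ℝ[X]) * C (2 ^ n) * ((bern n (c S n)).comp Lp - (bern n (c S n)).comp Lm) * hh)
      refine ⟨f1, second _ f1 ?_⟩
      simp only [derivative_mul, derivative_C, zero_mul, zero_add, derivative_comp, dD, dU, dc, dp,
        mul_comp, sub_comp, add_comp, natCast_comp, one_comp, comp_assoc, pow_succ, C_mul, h2,
        derivative_add, derivative_ofNat]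
      have fp' := fp
      simp only [sub_comp, one_comp] at fp'
      rw [fp']
      linear_combination (n + 1 : ℝ[X]) * (ih1 - ih2) +
        (n + 1 : ℝ[X]) * C (2 ^ n) * ((bern n (c S n)).comp Lp - (bern n (c S n)).comp Lm) * hh
    · have hK' : (S.filter (fun i => 0 < i ∧ i ≤ n + 1)).card = K := by
        rw [hK]
        congr 1
        ext i
        simp only [mem_filter]
        constructor
        · rintro ⟨h1, h3, h4⟩
          refine ⟨h1, h3, ?_⟩
          by_contra h5
          have : i = n + 1 := by omega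
          subst this; exact h h1
        · rintro ⟨h1, h3, h4⟩
          exact ⟨h1, h3, by omega⟩
      simp only [h, if_false] at dU dD dc
      rw [bern_add] at dU
      rw [hK']
      have f1 := first K (by
        simp only [derivative_mul, derivative_C, zero_mul, zero_add, derivative_comp, dD, dc, dm,
          mul_comp, add_comp, natCast_comp, one_comp, pow_succ, C_mul, h2, derivative_ofNat]
        linear_combination (-(n + 1) : ℝ[X]) * ih1 +
          (n + 1 : ℝ[X]) * C (2 ^ n) * ((bern n (c S n)).comp Lm) * hh)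
      refine ⟨f1, second _ f1 ?_⟩
      simp only [derivative_mul, derivative_C, zero_mul, zero_add, derivative_comp, dD, dU, dc, dp,
        mul_comp, add_comp, natCast_comp, one_comp, pow_succ, C_mul, h2,
        derivative_add, derivative_ofNat]
      linear_combination (n + 1 : ℝ[X]) * ih2 -
        (n + 1 : ℝ[X]) * C (2 ^ n) * ((bern n (c S n)).comp Lp) * hh

open Classical in
theorem count_eq (hS : ∀ i ∈ S, 0 < i) (n : ℕ) (hn : ∀ i ∈ S, i ≤ n) :
    (2 : ℝ) ^ S.card * (Nat.card {π : Equiv.Perm (Fin (n + 1)) // Valid S π} : ℝ) =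
      2 ^ n * sg S n := by
  have h : n + 1 ∉ S := fun h => by have := hn _ h; omega
  have h1 := congrArg (eval 1) (link S (n + 1)).2
  have hf : S.filter (fun i => 0 < i ∧ i ≤ n + 1) = S :=
    filter_true_of_mem fun i hi => ⟨hS i hi, by have := hn i hi; omega⟩
  rw [hf] at h1
  have e1 : eval 1 Lp = 1 := by simp [Lp]; norm_num
  simp only [eval_mul, eval_C, eval_comp, eval_add, e1, bern_one, DD_succ_last, eval_ofNat,
    add_zero] at h1
  rw [UU_succ S n _ le_rfl, c_non S h] at h1
  have e2 : (∑ π : Equiv.Perm (Fin (n + 1)),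
      if Valid S π ∧ n + 1 ∉ S ∧ pv π n < n + 1 then (1 : ℝ) else 0) =
      (Nat.card {π : Equiv.Perm (Fin (n + 1)) // Valid S π} : ℝ) := by
    rw [Nat.card_eq_fintype_card, Fintype.card_subtype, card_filter]
    push_cast
    apply sum_congr rfl
    intro π _
    have := pv_lt π (Nat.lt_succ_self n)
    simp [h, this]
  rw [e2] at h1
  unfold sg
  linear_combination (1 / 2) * h1

end Pool.Agent.H983Z.Peak
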