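import Pool.Agent.H983Z.Peak.Regions
import Pool.Agent.H983Z.Peak.Count

set_option autoImplicit false

namespace Pool.Agent.H983Z.Peak

open Finset Polynomial

lemma B_poly (S : Finset ℕ) (n : ℕ) : ∃ q : ℂ[X], ∀ z, q.eval z = B S z n := by
  refine ⟨∑ k ∈ range (n + 1), C (c S n (n - k) : ℂ) *
    ((∏ j ∈ range k, (X - C ((n : ℂ) + 1) + C (j : ℂ) + 1)) * C ((k.factorial : ℂ)⁻¹)), fun z => ?_⟩
  simp only [B, up, eval_finset_sum, eval_mul, eval_C, eval_prod, eval_add, eval_sub, eval_X,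
    eval_one, div_eq_mul_inv]

lemma B_stable (S : Finset ℕ) (z : ℂ) (m : ℕ) (hm : ∀ i ∈ S, i ≤ m) (j : ℕ) :
    B S z (m + j) = B S z m := by
  induction j with
  | zero => rfl
  | succ j ih =>
    rw [← add_assoc, B_non S z (fun h => by have := hm _ h; omega), ih]

lemma valid_iff (S : Finset ℕ) (n : ℕ) (hn : n ∉ S) (π : Equiv.Perm (Fin n)) :
    (∀ j : Fin n, (j.val + 1 ∈ S ↔
      ∃ h : j.val + 1 < n, 0 < j.val ∧
        π ⟨j.val - 1, lt_of_le_of_lt (Nat.sub_le j.val 1) j.isLt⟩ < π j ∧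
        π ⟨j.val + 1, h⟩ < π j)) ↔ Valid S π := by
  constructor
  · intro h j hj
    have h1 : j < n := by omega
    have h2 : j - 1 < n := by omega
    rw [h ⟨j, h1⟩]
    simp only [pv, h1, h2, hj, dif_pos, exists_true_left, Fin.lt_def]
  · intro h j
    by_cases hj : j.val + 1 < n
    · have h1 := j.isLt
      have h2 : j.val - 1 < n := by omega
      rw [h j hj]
      simp only [pv, h1, h2, hj, dif_pos, exists_true_left, Fin.lt_def]
    · have : j.val + 1 = n := by have := j.isLt; omega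
      rw [this]
      simp [hn]

theorem final :
    ∀ (S : Finset ℕ) (hS : S.Nonempty),
      (∀ i ∈ S, 2 ≤ i ∧ i + 1 ∉ S) →
      ∀ p : Polynomial ℂ,
        (∃ N : ℕ, ∀ n : ℕ, N ≤ n →
          ((Nat.card {π : Equiv.Perm (Fin n) //
              ∀ j : Fin n, (j.val + 1 ∈ S ↔
                ∃ h : j.val + 1 < n, 0 < j.val ∧
                  π ⟨j.val - 1, lt_of_le_of_lt (Nat.sub_le j.val 1) j.isLt⟩ < π j ∧
                  π ⟨j.val + 1, h⟩ < π j)} : ℂ)
            = p.eval (n : ℂ) * 2 ^ (n - S.card - 1))) →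
        ∀ z : ℂ, p.IsRoot z → ‖z‖ ≤ (S.max' hS : ℝ) ∧ -3 ≤ z.re := by
  intro S hne hS p ⟨N, hN⟩ z hz
  set m := S.max' hne with hm
  have hmS : m ∈ S := S.max'_mem hne
  have hle : ∀ i ∈ S, i ≤ m := fun i hi => S.le_max' i hi
  obtain ⟨q, hq⟩ := B_poly S m
  have key : ∀ j : ℕ, p.eval ((m + N + S.card + j + 1 : ℕ) : ℂ) =
      q.eval ((m + N + S.card + j + 1 : ℕ) : ℂ) := by
    intro j
    set n := m + N + S.card + j with hn
    have h1 := hN (n + 1) (by omega)
    have hn' : n + 1 ∉ S := fun h => by have := hle _ h; omega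
    simp only [valid_iff S (n + 1) hn'] at h1
    have h2 := count_eq S (fun i hi => by have := (hS i hi).1; omega) n
      (fun i hi => by have := hle i hi; omega)
    have h3 : (2 : ℂ) ^ S.card * (Nat.card {π : Equiv.Perm (Fin (n + 1)) // Valid S π} : ℂ) =
        2 ^ n * (sg S n : ℂ) := by exact_mod_cast h2
    have h4 : q.eval ((n + 1 : ℕ) : ℂ) = sg S n := by
      rw [hq, ← B_stable S _ m hle (N + S.card + j), show m + (N + S.card + j) = n by omega]
      push_cast
      exact B_self S n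
    rw [h4]
    rw [h1] at h3
    have h5 : (2 : ℂ) ^ n = 2 ^ S.card * 2 ^ (n + 1 - S.card - 1) := by
      rw [← pow_add]; congr 1; omega
    have h6 : (2 : ℂ) ^ n ≠ 0 := pow_ne_zero _ two_ne_zero
    apply mul_left_cancel₀ h6
    rw [← h3, h5]; ring
  have hpq : p = q := by
    apply Polynomial.eq_of_infinite_eval_eq
    apply Set.infinite_of_injective_forall_mem
      (f := fun j : ℕ => ((m + N + S.card + j + 1 : ℕ) : ℂ))
    · intro a b hab
      have : m + N + S.card + a + 1 = m + N + S.card + b + 1 := Nat.cast_injective (R := ℂ) hab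
      omega
    · exact key
  apply roots hS hmS
  rw [← hq, ← hpq]
  exact hz

end Pool.Agent.H983Z.Peak
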