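import Mathlib

set_option autoImplicit false

namespace Pool.Agent.H983Z.Peak

open Finset

/-- Bernstein coefficient model: `c S n k` for `k ≤ n`. -/
noncomputable def c (S : Finset ℕ) : ℕ → ℕ → ℝ
  | 0, _ => 1
  | n + 1, k => ∑ j ∈ range k, (if n + 1 ∈ S then c S n (n - j) - c S n j else c S n j)

noncomputable def sg (S : Finset ℕ) (n : ℕ) : ℝ := ∑ k ∈ range (n + 1), c S n k

/-- `up y k` is the binomial coefficient `(y + k) choose k`. -/
noncomputable def up (y : ℂ) (k : ℕ) : ℂ := (∏ j ∈ range k, (y + j + 1)) / (k.factorial : ℂ)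

noncomputable def A (S : Finset ℕ) (z : ℂ) (n : ℕ) : ℂ :=
  ∑ k ∈ range (n + 1), (c S n k : ℂ) * up (z - (n + 1)) k

noncomputable def B (S : Finset ℕ) (z : ℂ) (n : ℕ) : ℂ :=
  ∑ k ∈ range (n + 1), (c S n (n - k) : ℂ) * up (z - (n + 1)) k

lemma up_zero (y : ℂ) : up y 0 = 1 := by simp [up]

lemma up_succ (y : ℂ) (k : ℕ) : up y (k + 1) = up y k * (y + k + 1) / (k + 1) := by
  have h1 : (k.factorial : ℂ) ≠ 0 := by exact_mod_cast k.factorial_ne_zero
  have h2 : ((k : ℂ) + 1) ≠ 0 := by exact_mod_cast k.succ_ne_zero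
  unfold up
  rw [prod_range_succ, Nat.factorial_succ]
  push_cast
  field_simp

lemma up_succ' (y : ℂ) (k : ℕ) : up (y - 1) (k + 1) = up y k * y / (k + 1) := by
  have h1 : (k.factorial : ℂ) ≠ 0 := by exact_mod_cast k.factorial_ne_zero
  have h2 : ((k : ℂ) + 1) ≠ 0 := by exact_mod_cast k.succ_ne_zero
  unfold up
  rw [prod_range_succ', Nat.factorial_succ]
  have : ∏ j ∈ range k, (y - 1 + ((j + 1 : ℕ) : ℂ) + 1) = ∏ j ∈ range k, (y + j + 1) := by
    apply prod_congr rfl; intro j _; push_cast; ring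
  rw [this]
  push_cast
  field_simp
  ring

lemma up_pascal (y : ℂ) (k : ℕ) : up (y - 1) (k + 1) = up y (k + 1) - up y k := by
  have h2 : ((k : ℂ) + 1) ≠ 0 := by exact_mod_cast k.succ_ne_zero
  rw [up_succ', up_succ]
  field_simp
  ring

lemma up_arg_zero (k : ℕ) : up 0 k = 1 := by
  induction k with
  | zero => exact up_zero _
  | succ k ih =>
    have h2 : ((k : ℂ) + 1) ≠ 0 := by exact_mod_cast k.succ_ne_zero
    rw [up_succ, ih]; field_simp; ring

lemma up_neg (z : ℂ) (i : ℕ) : up (z - i) i = (-1) ^ i * up (-z - 1) i := by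
  unfold up
  rw [← prod_range_reflect (fun j => z - i + j + 1) i]
  have : ∏ j ∈ range i, (z - i + ((i - 1 - j : ℕ) : ℂ) + 1) =
      ∏ j ∈ range i, ((-1) * (-z - 1 + j + 1)) := by
    apply prod_congr rfl
    intro j hj
    have hj' := mem_range.mp hj
    have : ((i - 1 - j : ℕ) : ℂ) = i - 1 - j := by
      have h : i - 1 - j + j + 1 = i := by omega
      have h' : (((i - 1 - j : ℕ) : ℂ)) + j + 1 = i := by exact_mod_cast h
      linear_combination h'
    rw [this]; ring
  rw [this, prod_mul_distrib, prod_const, card_range]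
  ring

lemma hockey1 (y : ℕ → ℂ) (w : ℂ) (n : ℕ) :
    ∑ k ∈ range (n + 1), (∑ j ∈ range k, y j) * up (w - 1) k =
      ∑ j ∈ range n, y j * (up w n - up w j) := by
  induction n with
  | zero => simp
  | succ n ih =>
    rw [sum_range_succ, ih, up_pascal, sum_range_succ (fun j => y j * (up w (n + 1) - up w j)),
      sum_range_succ y, add_mul, sum_mul, ← add_assoc, ← sum_add_distrib]
    congr 1
    apply sum_congr rfl; intro j _; ring

lemma hockey2 (y : ℕ → ℂ) (w : ℂ) (n : ℕ) :
    ∑ k ∈ range (n + 2), (∑ j ∈ range (n + 1 - k), y j) * up (w - 1) k =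
      ∑ j ∈ range (n + 1), y (n - j) * up w j := by
  induction n with
  | zero => simp [sum_range_succ, up_zero]
  | succ n ih =>
    have e1 : ∑ k ∈ range (n + 1 + 2), (∑ j ∈ range (n + 1 + 1 - k), y j) * up (w - 1) k =
        ∑ k ∈ range (n + 2), (∑ j ∈ range (n + 1 - k), y j) * up (w - 1) k +
          ∑ k ∈ range (n + 2), y (n + 1 - k) * up (w - 1) k := by
      rw [show n + 1 + 2 = (n + 2) + 1 by ring, sum_range_succ, ← sum_add_distrib]
      simp only [show n + 1 + 1 - (n + 2) = 0 by omega, range_zero, sum_empty, zero_mul, add_zero]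
      apply sum_congr rfl
      intro k hk
      have hk' := mem_range.mp hk
      rw [show n + 1 + 1 - k = (n + 1 - k) + 1 by omega, sum_range_succ]
      ring
    rw [e1, ih, sum_range_succ' (fun j => y (n + 1 - j) * up w j),
      sum_range_succ' (fun j => y (n + 1 - j) * up (w - 1) j), up_zero, up_zero, ← add_assoc,
      ← sum_add_distrib]
    congr 1
    apply sum_congr rfl
    intro j _
    rw [up_pascal, show n + 1 - (j + 1) = n - j by omega]
    ring

variable (S : Finset ℕ) (z : ℂ)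

lemma c_non {n : ℕ} (h : n + 1 ∉ S) (k : ℕ) : c S (n + 1) k = ∑ j ∈ range k, c S n j := by
  simp [c, h]

lemma c_peak {n : ℕ} (h : n + 1 ∈ S) (k : ℕ) :
    c S (n + 1) k = ∑ j ∈ range k, (c S n (n - j) - c S n j) := by
  simp [c, h]

lemma shift_arg (n : ℕ) : z - (((n + 1 : ℕ) : ℂ) + 1) = (z - (n + 1)) - 1 := by
  push_cast; ring

lemma A_non {n : ℕ} (h : n + 1 ∉ S) :
    A S z (n + 1) = (sg S n : ℂ) * up (z - (n + 1)) (n + 1) - A S z n := by
  unfold A sg
  simp only [c_non S h, shift_arg]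
  push_cast
  rw [hockey1 (fun j => (c S n j : ℂ)), sum_mul, ← sum_sub_distrib]
  apply sum_congr rfl; intro j _; ring

lemma B_non {n : ℕ} (h : n + 1 ∉ S) : B S z (n + 1) = B S z n := by
  unfold B
  simp only [c_non S h, shift_arg]
  push_cast
  rw [hockey2 (fun j => (c S n j : ℂ))]

lemma A_peak {n : ℕ} (h : n + 1 ∈ S) : A S z (n + 1) = A S z n - B S z n := by
  unfold A B
  simp only [c_peak S h, shift_arg]
  push_cast
  rw [hockey1 (fun j => (c S n (n - j) : ℂ) - c S n j)]
  have h0 : ∑ j ∈ range (n + 1), ((c S n (n - j) : ℂ) - c S n j) = 0 := by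
    rw [sum_sub_distrib, sub_eq_zero]
    exact sum_range_reflect (fun j => (c S n j : ℂ)) (n + 1)
  have : ∑ j ∈ range (n + 1), ((c S n (n - j) : ℂ) - c S n j) *
      (up (z - (n + 1)) (n + 1) - up (z - (n + 1)) j) =
      (∑ j ∈ range (n + 1), ((c S n (n - j) : ℂ) - c S n j)) * up (z - (n + 1)) (n + 1) +
      (∑ j ∈ range (n + 1), (c S n j : ℂ) * up (z - (n + 1)) j -
        ∑ j ∈ range (n + 1), (c S n (n - j) : ℂ) * up (z - (n + 1)) j) := by
    rw [sum_mul, ← sum_sub_distrib, ← sum_add_distrib]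
    apply sum_congr rfl; intro j _; ring
  rw [this, h0]; ring

lemma B_peak {n : ℕ} (h : n + 1 ∈ S) : B S z (n + 1) = A S z n - B S z n := by
  unfold A B
  simp only [c_peak S h, shift_arg]
  push_cast
  rw [hockey2 (fun j => (c S n (n - j) : ℂ) - c S n j), ← sum_sub_distrib]
  apply sum_congr rfl
  intro j hj
  have hj' := mem_range.mp hj
  rw [show n - (n - j) = j by omega]; ring

lemma A_zero : A S z 0 = 1 := by simp [A, c, up_zero]
lemma B_zero : B S z 0 = 1 := by simp [B, c, up_zero]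
lemma sg_zero : sg S 0 = 1 := by simp [sg, c]

lemma B_self (n : ℕ) : B S ((n : ℂ) + 1) n = sg S n := by
  unfold B sg
  simp only [sub_self, up_arg_zero, mul_one]
  push_cast
  exact sum_range_reflect (fun j => (c S n j : ℂ)) (n + 1)

lemma cover (f : ℕ → ℝ) (N : ℕ) (hf : ∀ i j, i ≤ j → j ≤ N → f i ≤ f j) (d : ℕ) (hd : 1 ≤ d) :
    ∀ l, l + d ≤ N → f (l + d) - f 0 ≤ ∑ j ∈ range (l + 1), (f (j + d) - f j) := by
  intro l
  induction l with
  | zero => intro _; simp
  | succ l ih =>
    intro h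
    rw [sum_range_succ]
    have h1 := ih (by omega)
    have h2 := hf (l + 1) (l + d) (by omega) (by omega)
    linarith

variable {S}

lemma c_mono {n : ℕ} (h : n + 1 ∉ S) (hn : ∀ k, k ≤ n → 0 ≤ c S n k) :
    ∀ i j, i ≤ j → j ≤ n + 1 → c S (n + 1) i ≤ c S (n + 1) j := by
  intro i j hij hj
  rw [c_non S h, c_non S h]
  apply sum_le_sum_of_subset_of_nonneg (range_mono hij)
  intro k hk _
  exact hn k (by have := mem_range.mp hk; omega)

lemma c_peak_ge {n : ℕ} (h : n + 1 ∉ S) (h2 : n + 2 ∈ S) (hn : ∀ k, k ≤ n → 0 ≤ c S n k)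
    (l : ℕ) (hl : l ≤ n) : sg S n ≤ c S (n + 2) (l + 1) := by
  have hc := cover (c S (n + 1)) (n + 1) (c_mono h hn) (n + 1 - l) (by omega) l (by omega)
  rw [show l + (n + 1 - l) = n + 1 by omega, c_non S h (n + 1), c_non S h 0] at hc
  rw [c_peak S h2, sum_sub_distrib, ← sum_range_reflect (fun j => c S (n + 1) (n + 1 - j)) (l + 1),
    ← sum_sub_distrib]
  have : ∑ j ∈ range (l + 1), (c S (n + 1) (n + 1 - (l + 1 - 1 - j)) - c S (n + 1) j) =
      ∑ j ∈ range (l + 1), (c S (n + 1) (j + (n + 1 - l)) - c S (n + 1) j) := by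
    apply sum_congr rfl
    intro j hj
    have hj' := mem_range.mp hj
    rw [show n + 1 - (l + 1 - 1 - j) = j + (n + 1 - l) by omega]
  rw [this]
  simpa [sg] using hc

lemma c_peak_last {n : ℕ} (h2 : n + 1 ∈ S) : c S (n + 1) (n + 1) = 0 := by
  rw [c_peak S h2, sum_sub_distrib, sub_eq_zero]
  exact sum_range_reflect (fun j => c S n j) (n + 1)

lemma c_nonneg (hS : ∀ i ∈ S, 2 ≤ i ∧ i + 1 ∉ S) : ∀ n k, k ≤ n → 0 ≤ c S n k := by
  intro n
  induction n using Nat.strong_induction_on with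
  | _ n ih =>
    intro k hk
    match n, ih, hk with
    | 0, _, _ => simp [c]
    | n + 1, ih, hk =>
      by_cases h : n + 1 ∈ S
      · have h2 := (hS _ h).1
        obtain ⟨n', rfl⟩ : ∃ n', n = n' + 1 := ⟨n - 1, by omega⟩
        have h3 : n' + 1 ∉ S := fun h3 => (hS _ h3).2 h
        have hn := ih n' (by omega)
        rcases Nat.eq_zero_or_pos k with rfl | hk0
        · simp [c]
        · obtain ⟨l, rfl⟩ : ∃ l, k = l + 1 := ⟨k - 1, by omega⟩
          by_cases hl : l ≤ n'
          · refine le_trans ?_ (c_peak_ge h3 h hn l hl)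
            exact sum_nonneg fun j hj => hn j (by have := mem_range.mp hj; omega)
          · have : l = n' + 1 := by omega
            subst this
            rw [c_peak_last h]
      · rw [c_non S h]
        exact sum_nonneg fun j hj => ih n (by omega) j (by have := mem_range.mp hj; omega)

lemma sg_non (hS : ∀ i ∈ S, 2 ≤ i ∧ i + 1 ∉ S) {n : ℕ} (h : n + 1 ∉ S) :
    sg S n ≤ sg S (n + 1) := by
  have : sg S n = c S (n + 1) (n + 1) := by rw [c_non S h]; rfl
  rw [this]
  exact single_le_sum (f := fun k => c S (n + 1) k)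
    (fun j hj => c_nonneg hS _ j (by have := mem_range.mp hj; omega)) (self_mem_range_succ _)

lemma sg_peak (hS : ∀ i ∈ S, 2 ≤ i ∧ i + 1 ∉ S) {n : ℕ} (h2 : n + 2 ∈ S) :
    (n + 1) * sg S n ≤ sg S (n + 2) := by
  have h : n + 1 ∉ S := fun h3 => (hS _ h3).2 h2
  have e : sg S (n + 2) = ∑ l ∈ range (n + 1), c S (n + 2) (l + 1) := by
    unfold sg
    rw [sum_range_succ, c_peak_last h2, sum_range_succ', add_zero]
    simp [c]
  rw [e]
  have := card_nsmul_le_sum (range (n + 1)) (fun l => c S (n + 2) (l + 1)) (sg S n)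
    (fun l hl => c_peak_ge h h2 (c_nonneg hS n) l (by have := mem_range.mp hl; omega))
  simpa using this

lemma sg_pos (hS : ∀ i ∈ S, 2 ≤ i ∧ i + 1 ∉ S) : ∀ n, 0 < sg S n := by
  intro n
  induction n using Nat.strong_induction_on with
  | _ n ih =>
    match n, ih with
    | 0, _ => simp [sg_zero]
    | n + 1, ih =>
      by_cases h : n + 1 ∈ S
      · have h2 := (hS _ h).1
        obtain ⟨n', rfl⟩ : ∃ n', n = n' + 1 := ⟨n - 1, by omega⟩
        have h3 := sg_peak hS h
        have h4 := ih n' (by omega)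
        have : (0 : ℝ) < (n' + 1) * sg S n' := by positivity
        linarith
      · exact lt_of_lt_of_le (ih n (by omega)) (sg_non hS h)

end Pool.Agent.H983Z.Peak
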