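import Pool.Agent.H983Z.Peak.Model

set_option autoImplicit false

namespace Pool.Agent.H983Z.Peak

open Finset

/-! ### The region outside the disc -/

lemma outer_step {z : ℂ} {n : ℕ} (hz : (n : ℝ) + 1 < ‖z‖) (k : ℕ) (hk : k < n) :
    (k : ℝ) + 2 < ‖z - n + k + 1‖ := by
  have h1 : ‖z‖ ≤ ‖z - n + k + 1‖ + ‖((n : ℂ) - k - 1)‖ := by
    have : z = (z - n + k + 1) + ((n : ℂ) - k - 1) := by ring
    calc ‖z‖ = ‖(z - n + k + 1) + ((n : ℂ) - k - 1)‖ := by rw [← this]
      _ ≤ _ := norm_add_le _ _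
  have h2 : ‖((n : ℂ) - k - 1)‖ = n - k - 1 := by
    have : ((n : ℂ) - k - 1) = (((n : ℝ) - k - 1 : ℝ) : ℂ) := by push_cast; ring
    rw [this, Complex.norm_real, Real.norm_eq_abs, abs_of_nonneg]
    have : (k : ℝ) + 1 ≤ n := by exact_mod_cast hk
    linarith
  linarith

lemma norm_up_succ (y : ℂ) (k : ℕ) : ‖up y (k + 1)‖ = ‖up y k‖ * ‖y + k + 1‖ / (k + 1) := by
  rw [up_succ, norm_div, norm_mul]
  congr 1
  have : ((k : ℂ) + 1) = (((k : ℝ) + 1 : ℝ) : ℂ) := by push_cast; ring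
  rw [this, Complex.norm_real, Real.norm_eq_abs, abs_of_nonneg (by positivity)]

lemma outer_mono {z : ℂ} {n : ℕ} (hz : (n : ℝ) + 1 < ‖z‖) :
    ∀ k, k ≤ n → 0 < ‖up (z - n) k‖ ∧
      ∀ j, j < k → ‖up (z - n) j‖ / (j + 1) < ‖up (z - n) k‖ / (k + 1) := by
  intro k
  induction k with
  | zero => intro _; simp [up_zero]
  | succ k ih =>
    intro hk
    obtain ⟨h0, h1⟩ := ih (by omega)
    have hs := outer_step hz k (by omega)
    have hk1 : (0 : ℝ) < k + 1 := by positivity
    have key : ‖up (z - n) k‖ / (k + 1) < ‖up (z - n) (k + 1)‖ / ((k + 1 : ℕ) + 1) := by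
      rw [norm_up_succ]
      push_cast
      rw [div_div, div_lt_div_iff₀ hk1 (by positivity)]
      have := mul_lt_mul_of_pos_left hs (mul_pos h0 hk1)
      nlinarith
    refine ⟨?_, ?_⟩
    · rw [norm_up_succ]
      have : (0 : ℝ) < ‖z - n + k + 1‖ := by linarith
      positivity
    · intro j hj
      rcases Nat.lt_succ_iff_lt_or_eq.mp hj with h | rfl
      · exact (h1 j h).trans key
      · exact key

variable {S : Finset ℕ}

lemma outer (hS : ∀ i ∈ S, 2 ≤ i ∧ i + 1 ∉ S) {n : ℕ} (h2 : n + 2 ∈ S) {z : ℂ}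
    (hz : (n : ℝ) + 2 < ‖z‖) : B S z (n + 2) ≠ 0 := by
  have h : n + 1 ∉ S := fun h3 => (hS _ h3).2 h2
  rw [B_peak S z h2, A_non S z h, B_non S z h]
  have hz' : ((n + 1 : ℕ) : ℝ) + 1 < ‖z‖ := by push_cast; linarith
  obtain ⟨h0, h1⟩ := outer_mono hz' (n + 1) le_rfl
  push_cast at h0 h1
  set G := ‖up (z - (n + 1)) (n + 1)‖ with hG
  have hb : ‖A S z n + B S z n‖ < sg S n * G := by
    have e : A S z n + B S z n =
        ∑ k ∈ range (n + 1), ((c S n k + c S n (n - k) : ℝ) : ℂ) * up (z - (n + 1)) k := by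
      unfold A B
      rw [← sum_add_distrib]
      apply sum_congr rfl; intro k _; push_cast; ring
    have hc : ∀ k ∈ range (n + 1), 0 ≤ c S n k + c S n (n - k) := fun k hk =>
      add_nonneg (c_nonneg hS n k (by have := mem_range.mp hk; omega))
        (c_nonneg hS n _ (by omega))
    have e2 : sg S n * G =
        ∑ k ∈ range (n + 1), (c S n k + c S n (n - k)) * ((k + 1) * (G / (n + 1 + 1))) := by
      have e3 : ∑ k ∈ range (n + 1), c S n (n - k) * ((k + 1) * (G / (n + 1 + 1))) =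
          ∑ k ∈ range (n + 1), c S n k * ((n - k + 1) * (G / (n + 1 + 1))) := by
        rw [← sum_range_reflect (fun k => c S n k * ((n - k + 1) * (G / (n + 1 + 1)))) (n + 1)]
        apply sum_congr rfl
        intro k hk
        have hk' := mem_range.mp hk
        have : ((n + 1 - 1 - k : ℕ) : ℝ) = n - k := by
          rw [show n + 1 - 1 - k = n - k by omega, Nat.cast_sub (by omega)]
        rw [this, show n + 1 - 1 - k = n - k by omega]
        ring
      simp only [add_mul (c S n _)]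
      rw [sum_add_distrib, e3, ← sum_add_distrib, sg, sum_mul]
      apply sum_congr rfl
      intro k _
      field_simp
      ring
    rw [e, e2]
    refine lt_of_le_of_lt (norm_sum_le _ _) ?_
    have hle : ∀ k ∈ range (n + 1), ‖up (z - (n + 1)) k‖ < (k + 1) * (G / (n + 1 + 1)) := by
      intro k hk
      have := h1 k (mem_range.mp hk)
      rw [div_lt_iff₀ (by positivity)] at this
      linarith
    obtain ⟨k0, hk0, hk1⟩ : ∃ k ∈ range (n + 1), 0 < c S n k := by
      by_contra hcon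
      push Not at hcon
      have := sum_nonpos hcon
      have h5 := sg_pos hS n
      unfold sg at h5
      linarith
    apply sum_lt_sum
    · intro k hk
      rw [norm_mul, Complex.norm_real, Real.norm_eq_abs, abs_of_nonneg (hc k hk)]
      exact mul_le_mul_of_nonneg_left (hle k hk).le (hc k hk)
    · refine ⟨k0, hk0, ?_⟩
      rw [norm_mul, Complex.norm_real, Real.norm_eq_abs, abs_of_nonneg (hc k0 hk0)]
      apply mul_lt_mul_of_pos_left (hle k0 hk0)
      have := c_nonneg hS n (n - k0) (by omega)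
      linarith
  intro h5
  have : A S z n + B S z n = (sg S n : ℂ) * up (z - (n + 1)) (n + 1) := by
    linear_combination -h5
  rw [this, norm_mul, Complex.norm_real, Real.norm_eq_abs, abs_of_pos (sg_pos hS n)] at hb
  exact lt_irrefl _ hb

/-! ### The left half plane -/

section Left

variable {w : ℂ}

lemma left_norm (hw : 3 < w.re) (k : ℕ) : (k : ℝ) + 3 < ‖w + k‖ := by
  have := Complex.re_le_norm (w + k)
  simp at this
  linarith

noncomputable def T (k : ℕ) : ℝ := (k + 1) * (k + 2) / 2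
noncomputable def Q (k : ℕ) : ℝ := (k + 1) * (k + 2) * (k + 3) / 6 + 1
noncomputable def tau (w : ℂ) (k : ℕ) : ℝ := ‖up (w - 1) k‖ / T k

lemma T_pos (k : ℕ) : 0 < T k := by unfold T; positivity

lemma x_eq (k : ℕ) : ‖up (w - 1) k‖ = T k * tau w k := by
  unfold tau; field_simp [(T_pos k).ne']

lemma tau_step (hw : 3 < w.re) (k : ℕ) (h : 0 < tau w k) : tau w k < tau w (k + 1) := by
  have h1 := left_norm hw k
  have h2 : ‖up (w - 1) (k + 1)‖ = T k * tau w k * ‖w + k‖ / (k + 1) := by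
    rw [norm_up_succ, x_eq]; congr 3; ring
  have h3 : tau w (k + 1) = tau w k * (‖w + k‖ / (k + 3)) := by
    rw [tau, h2]; unfold T; push_cast; field_simp; ring
  rw [h3]
  have : 1 < ‖w + k‖ / (k + 3) := by rw [lt_div_iff₀ (by positivity)]; linarith
  nlinarith

lemma tau_zero : tau w 0 = 1 := by simp [tau, T, up_zero]

lemma tau_pos (hw : 3 < w.re) (k : ℕ) : 0 < tau w k := by
  induction k with
  | zero => simp [tau_zero]
  | succ k ih => exact ih.trans (tau_step hw k ih)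

lemma tau_mono (hw : 3 < w.re) : StrictMono (tau w) :=
  strictMono_nat_of_lt_succ fun k => tau_step hw k (tau_pos hw k)

lemma g_step' (hw : 3 < w.re) (k : ℕ) : ‖up w k‖ * (k + 4) ≤ ‖up w (k + 1)‖ * (k + 1) := by
  have h1 := left_norm hw (k + 1)
  rw [norm_up_succ]
  push_cast at h1
  rw [← add_assoc] at h1
  have : ‖up w k‖ * ‖w + k + 1‖ / (k + 1) * (k + 1) = ‖up w k‖ * ‖w + k + 1‖ := by field_simp
  rw [this]
  apply mul_le_mul_of_nonneg_left _ (norm_nonneg _)
  linarith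

lemma g_pos (hw : 3 < w.re) (k : ℕ) : 0 < ‖up w k‖ := by
  induction k with
  | zero => simp [up_zero]
  | succ k ih =>
    have := g_step' hw k
    by_contra h
    have h0 : ‖up w (k + 1)‖ = 0 := le_antisymm (not_lt.mp h) (norm_nonneg _)
    rw [h0] at this
    have : 0 < ‖up w k‖ * (k + 4) := by positivity
    linarith

lemma g_mono (hw : 3 < w.re) : StrictMono (fun k => ‖up w k‖) := by
  apply strictMono_nat_of_lt_succ
  intro k
  have h1 := g_step' hw k
  have h2 := g_pos hw k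
  by_contra h
  have h3 : ‖up w (k + 1)‖ ≤ ‖up w k‖ := not_lt.mp h
  have h4 : (0 : ℝ) ≤ k := by positivity
  nlinarith

lemma g_gap (hw : 3 < w.re) (n : ℕ) :
    8 * ‖up w (n + 1)‖ < (n + 1) * (‖up w (n + 2 + 3)‖ - ‖up w (n + 2)‖) := by
  have h0 := g_pos hw (n + 1)
  have h1 := g_step' hw (n + 1)
  have h2 := g_step' hw (n + 2)
  have h3 := g_step' hw (n + 3)
  have h4 := g_step' hw (n + 4)
  push_cast at h1 h2 h3 h4
  rw [show n + 1 + 1 = n + 2 by ring] at h1
  rw [show n + 2 + 1 = n + 3 by ring] at h2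
  rw [show n + 3 + 1 = n + 4 by ring] at h3
  rw [show n + 4 + 1 = n + 2 + 3 by ring] at h4
  set a := ‖up w (n + 1)‖
  set b := ‖up w (n + 2)‖
  set c3 := ‖up w (n + 3)‖
  set d := ‖up w (n + 4)‖
  set e := ‖up w (n + 2 + 3)‖
  have hn : (0 : ℝ) ≤ n := by positivity
  have hab : a ≤ b := by
    by_contra h
    have : b < a := not_le.mp h
    nlinarith
  have k1 : b * (1 + 3 / (n + 3)) ≤ c3 := by
    have : b * (1 + 3 / (n + 3)) = b * (n + 6) / (n + 3) := by field_simp; ring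
    rw [this, div_le_iff₀ (by positivity)]; linarith
  have k2 : c3 * (1 + 3 / (n + 4)) ≤ d := by
    have : c3 * (1 + 3 / (n + 4)) = c3 * (n + 7) / (n + 4) := by field_simp; ring
    rw [this, div_le_iff₀ (by positivity)]; linarith
  have k3 : d * (1 + 3 / (n + 5)) ≤ e := by
    have : d * (1 + 3 / (n + 5)) = d * (n + 8) / (n + 5) := by field_simp; ring
    rw [this, div_le_iff₀ (by positivity)]; linarith
  have k0 : a * (1 + 3 / (n + 2)) ≤ b := by
    have : a * (1 + 3 / (n + 2)) = a * (n + 5) / (n + 2) := by field_simp; ring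
    rw [this, div_le_iff₀ (by positivity)]; linarith
  have p1 : (0 : ℝ) < 1 + 3 / (n + 3) := by positivity
  have p2 : (0 : ℝ) < 1 + 3 / (n + 4) := by positivity
  have p3 : (0 : ℝ) < 1 + 3 / (n + 5) := by positivity
  have k4 : b * ((1 + 3 / (n + 3)) * (1 + 3 / (n + 4)) * (1 + 3 / (n + 5))) ≤ e := by
    have := mul_le_mul_of_nonneg_right k1 p2.le
    have := mul_le_mul_of_nonneg_right (this.trans k2) p3.le
    calc _ = b * (1 + 3 / (n + 3)) * (1 + 3 / (n + 4)) * (1 + 3 / (n + 5)) := by ring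
      _ ≤ _ := this.trans k3
  set R : ℝ := (1 + 3 / (n + 3)) * (1 + 3 / (n + 4)) * (1 + 3 / (n + 5)) - 1 with hR
  have hR0 : R = (9 * n ^ 2 + 99 * n + 276) / ((n + 3) * (n + 4) * (n + 5)) := by
    rw [hR]; field_simp; ring
  have hRp : 0 < R := by rw [hR0]; positivity
  have k5 : a * (1 + 3 / (n + 2)) * R ≤ e - b := by
    have := mul_le_mul_of_nonneg_right k0 hRp.le
    have h6 : b * R = b * ((1 + 3 / (n + 3)) * (1 + 3 / (n + 4)) * (1 + 3 / (n + 5))) - b := by
      rw [hR]; ring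
    linarith
  have k6 : 8 < (n + 1) * ((1 + 3 / (n + 2)) * R) := by
    have : (n + 1) * ((1 + 3 / (n + 2)) * R) =
        (n + 1) * (9 * n ^ 2 + 99 * n + 276) / ((n + 2) * (n + 3) * (n + 4)) := by
      rw [hR0]; field_simp; ring
    rw [this, lt_div_iff₀ (by positivity)]
    nlinarith [pow_nonneg hn 2, pow_nonneg hn 3]
  have k7 := mul_lt_mul_of_pos_left k6 h0
  have k8 := mul_le_mul_of_nonneg_left k5 (show (0 : ℝ) ≤ n + 1 by positivity)
  nlinarith

/-- The invariants at the start of a run. -/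
def Good (S : Finset ℕ) (w : ℂ) (s : ℕ) : Prop :=
  A S (-w) s = B S (-w) s ∧
  2 * ‖B S (-w) s‖ < sg S s * (T (s + 1) * tau w (s + 1)) ∧
  2 * ‖B S (-w) s‖ ≤ sg S s * (Q s * tau w (s + 1)) ∧
  2 * ‖B S (-w) s‖ < sg S s * (‖up w (s + 3)‖ - ‖up w s‖)

lemma good_zero (hw : 3 < w.re) : Good S w 0 := by
  have h1 := tau_mono hw (show 0 < 1 by omega)
  rw [tau_zero] at h1
  refine ⟨by rw [A_zero, B_zero], ?_, ?_, ?_⟩
  · simp [B_zero, sg_zero, T]; linarith
  · simp [B_zero, sg_zero, Q]; linarith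
  · have h2 := g_step' hw 0
    have h3 := g_mono hw (show 1 < 3 by omega)
    simp [up_zero] at h2 h3
    simp [B_zero, sg_zero, up_zero]; linarith

noncomputable def Sm (S : Finset ℕ) (w : ℂ) (s j : ℕ) : ℂ :=
  ∑ i ∈ range j, (sg S (s + i) : ℂ) * up (w - 1) (s + i + 1)

lemma run_eq (s j : ℕ) (h : ∀ i, i < j → s + i + 1 ∉ S) :
    A S (-w) (s + j) = (-1) ^ j * A S (-w) s + (-1) ^ (s + j) * Sm S w s j ∧
      B S (-w) (s + j) = B S (-w) s := by
  induction j with
  | zero => simp [Sm]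
  | succ j ih =>
    obtain ⟨h1, h2⟩ := ih (fun i hi => h i (by omega))
    have h3 := h j (by omega)
    rw [← add_assoc, A_non S _ h3, B_non S _ h3, h1, h2]
    refine ⟨?_, rfl⟩
    have e := up_neg (-w) (s + j + 1)
    have e2 : -w - (((s + j : ℕ) : ℂ) + 1) = -w - ((s + j + 1 : ℕ) : ℂ) := by push_cast; ring
    rw [e2, e, neg_neg]
    unfold Sm
    rw [sum_range_succ]
    ring

lemma run_mono (hS : ∀ i ∈ S, 2 ≤ i ∧ i + 1 ∉ S) (s j : ℕ) (h : ∀ i, i < j → s + i + 1 ∉ S) :
    sg S s ≤ sg S (s + j) := by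
  induction j with
  | zero => simp
  | succ j ih => exact (ih (fun i hi => h i (by omega))).trans (sg_non hS (h j (by omega)))

lemma abel (hS : ∀ i ∈ S, 2 ≤ i ∧ i + 1 ∉ S) (hw : 3 < w.re) (s j : ℕ)
    (h : ∀ i, i < j → s + i + 1 ∉ S) :
    ‖(sg S (s + j) : ℂ) * up w (s + j + 1) - Sm S w s (j + 1)‖ ≤
      (sg S (s + j) - sg S s) * ‖up w (s + j + 1)‖ + sg S s * ‖up w s‖ := by
  induction j with
  | zero =>
    have : (sg S (s + 0) : ℂ) * up w (s + 0 + 1) - Sm S w s (0 + 1) = sg S s * up w s := by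
      simp [Sm, up_pascal]; ring
    rw [this, norm_mul, Complex.norm_real, Real.norm_eq_abs, abs_of_pos (sg_pos hS s)]
    simp
  | succ j ih =>
    have h1 := ih (fun i hi => h i (by omega))
    have h2 : sg S (s + j) ≤ sg S (s + (j + 1)) := sg_non hS (h j (by omega))
    have h3 := run_mono hS s j (fun i hi => h i (by omega))
    have e : (sg S (s + (j + 1)) : ℂ) * up w (s + (j + 1) + 1) - Sm S w s (j + 1 + 1) =
        ((sg S (s + (j + 1)) - sg S (s + j) : ℝ) : ℂ) * up w (s + j + 1) +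
          ((sg S (s + j) : ℂ) * up w (s + j + 1) - Sm S w s (j + 1)) := by
      unfold Sm
      rw [sum_range_succ _ (j + 1), up_pascal]
      push_cast
      rw [show s + (j + 1) = s + j + 1 by ring]
      ring
    rw [e]
    refine (norm_add_le _ _).trans ?_
    rw [norm_mul, Complex.norm_real, Real.norm_eq_abs, abs_of_nonneg (by linarith)]
    have h4 : ‖up w (s + j + 1)‖ ≤ ‖up w (s + (j + 1) + 1)‖ := (g_mono hw).monotone (by omega)
    nlinarith

lemma plain (hS : ∀ i ∈ S, 2 ≤ i ∧ i + 1 ∉ S) (hw : 3 < w.re) (s j : ℕ)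
    (h : ∀ i, i < j → s + i + 1 ∉ S) (b : ℝ) (hb : b ≤ sg S s * (Q s * tau w (s + 1))) :
    ‖Sm S w s (j + 1)‖ + b ≤ sg S (s + j) * (Q (s + j + 1) * tau w (s + j + 1)) := by
  have hTQ : ∀ k, Q (k + 1) = Q k + T (k + 1) := by intro k; unfold Q T; push_cast; ring
  induction j with
  | zero =>
    have : Sm S w s (0 + 1) = sg S s * up (w - 1) (s + 1) := by simp [Sm]
    rw [this, norm_mul, Complex.norm_real, Real.norm_eq_abs, abs_of_pos (sg_pos hS s), x_eq]
    simp only [add_zero]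
    rw [hTQ]
    nlinarith
  | succ j ih =>
    have h1 := ih (fun i hi => h i (by omega))
    have h2 : sg S (s + j) ≤ sg S (s + (j + 1)) := sg_non hS (h j (by omega))
    have h3 : tau w (s + j + 1) ≤ tau w (s + (j + 1) + 1) := (tau_mono hw).monotone (by omega)
    have h4 := tau_pos hw (s + j + 1)
    have h5 := sg_pos hS (s + j)
    have hQ : 0 < Q (s + j + 1) := by unfold Q; positivity
    have e : Sm S w s (j + 1 + 1) =
        Sm S w s (j + 1) + (sg S (s + (j + 1)) : ℂ) * up (w - 1) (s + (j + 1) + 1) := by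
      unfold Sm; rw [sum_range_succ _ (j + 1)]
    have h6 : ‖Sm S w s (j + 1 + 1)‖ ≤ ‖Sm S w s (j + 1)‖ +
        sg S (s + (j + 1)) * (T (s + (j + 1) + 1) * tau w (s + (j + 1) + 1)) := by
      rw [e]
      refine (norm_add_le _ _).trans ?_
      rw [norm_mul, Complex.norm_real, Real.norm_eq_abs, abs_of_pos (sg_pos hS _), x_eq]
    have h7 : sg S (s + j) * (Q (s + j + 1) * tau w (s + j + 1)) ≤
        sg S (s + (j + 1)) * (Q (s + j + 1) * tau w (s + (j + 1) + 1)) := by
      apply mul_le_mul h2 (mul_le_mul_of_nonneg_left h3 hQ.le) (by positivity) (by linarith)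
    rw [hTQ (s + (j + 1)), show s + (j + 1) = s + j + 1 by ring] at *
    nlinarith

lemma run_step (hS : ∀ i ∈ S, 2 ≤ i ∧ i + 1 ∉ S) (hw : 3 < w.re) (s j : ℕ)
    (h : ∀ i, i < j + 1 → s + i + 1 ∉ S) (hm : s + j + 2 ∈ S) (hg : Good S w s) :
    B S (-w) (s + j + 2) ≠ 0 ∧ Good S w (s + j + 2) := by
  obtain ⟨g0, g1, g2, g3⟩ := hg
  obtain ⟨r1, r2⟩ := run_eq (w := w) s (j + 1) h
  rw [show s + (j + 1) = s + j + 1 by ring] at r1 r2
  have hB := B_peak S (-w) (n := s + j + 1) hm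
  have hA := A_peak S (-w) (n := s + j + 1) hm
  rw [show s + j + 1 + 1 = s + j + 2 by ring] at hA hB
  rw [r1, r2, g0] at hB
  have h' : ∀ i, i < j → s + i + 1 ∉ S := fun i hi => h i (by omega)
  have hab := abel hS hw s j h'
  have hpl := plain hS hw s j h' _ g2
  have hmono := run_mono hS s j h'
  have hs0 := sg_pos hS s
  have hs1 := sg_pos hS (s + j)
  have hpk := sg_peak hS (n := s + j) hm
  set b := B S (-w) s
  set N := B S (-w) (s + j + 2)
  set M := Sm S w s (j + 1) with hM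
  have n1 : ‖(-1 : ℂ) ^ (j + 1) * b - b‖ ≤ 2 * ‖b‖ := by
    refine (norm_sub_le _ _).trans ?_
    rw [norm_mul, norm_pow, norm_neg, norm_one, one_pow]; linarith
  have n2 : ‖(-1 : ℂ) ^ (s + j + 1) * M‖ = ‖M‖ := by
    rw [norm_mul, norm_pow, norm_neg, norm_one, one_pow, one_mul]
  have up1 : ‖N‖ ≤ ‖M‖ + 2 * ‖b‖ := by
    have : N = (-1 : ℂ) ^ (s + j + 1) * M + ((-1 : ℂ) ^ (j + 1) * b - b) := by rw [hB]; ring
    rw [this]
    refine (norm_add_le _ _).trans ?_
    linarith
  have lo1 : ‖M‖ - 2 * ‖b‖ ≤ ‖N‖ := by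
    have : (-1 : ℂ) ^ (s + j + 1) * M = N - ((-1 : ℂ) ^ (j + 1) * b - b) := by rw [hB]; ring
    have h5 := norm_sub_le N ((-1 : ℂ) ^ (j + 1) * b - b)
    rw [← this] at h5
    linarith
  have nG : ‖(sg S (s + j) : ℂ) * up w (s + j + 1)‖ = sg S (s + j) * ‖up w (s + j + 1)‖ := by
    rw [norm_mul, Complex.norm_real, Real.norm_eq_abs, abs_of_pos hs1]
  have lo2 : sg S s * (‖up w (s + j + 1)‖ - ‖up w s‖) ≤ ‖M‖ := by
    have h5 := norm_sub_norm_le ((sg S (s + j) : ℂ) * up w (s + j + 1)) M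
    rw [nG] at h5
    linarith
  have gm1 : ‖up w s‖ < ‖up w (s + j + 1)‖ := g_mono hw (by omega)
  have gm2 : ‖up w (s + 1)‖ ≤ ‖up w (s + j + 1)‖ := (g_mono hw).monotone (by omega)
  have gp := g_pos hw s
  have up2 : ‖M‖ ≤ 2 * (sg S (s + j) * ‖up w (s + j + 1)‖) := by
    have h5 := norm_sub_norm_le M ((sg S (s + j) : ℂ) * up w (s + j + 1))
    rw [nG, norm_sub_rev] at h5
    nlinarith
  have up3 : 2 * ‖b‖ ≤ 2 * (sg S (s + j) * ‖up w (s + j + 1)‖) := by
    have h5 : T (s + 1) * tau w (s + 1) ≤ ‖up w (s + 1)‖ + ‖up w s‖ := by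
      rw [← x_eq, up_pascal]; exact norm_sub_le _ _
    have h6 : sg S s * (T (s + 1) * tau w (s + 1)) ≤ sg S (s + j) * (2 * ‖up w (s + j + 1)‖) := by
      apply mul_le_mul hmono (by linarith) _ hs1.le
      have := T_pos (s + 1)
      have := tau_pos hw (s + 1)
      positivity
    linarith
  have ga : 2 * ‖N‖ < sg S (s + j + 2) * (T (s + j + 2 + 1) * tau w (s + j + 2 + 1)) := by
    have t1 : tau w (s + j + 1) < tau w (s + j + 2 + 1) := tau_mono hw (by omega)
    have t0 := tau_pos hw (s + j + 1)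
    have tT := T_pos (s + j + 2 + 1)
    have q1 : 2 * Q (s + j + 1) ≤ ((s + j : ℕ) + 1) * T (s + j + 2 + 1) := by
      unfold Q T
      have hn : (0 : ℝ) ≤ (s + j : ℕ) := by positivity
      push_cast at hn ⊢
      set x : ℝ := s + j
      nlinarith [mul_nonneg hn hn, mul_nonneg hn (mul_nonneg hn hn)]
    calc 2 * ‖N‖ ≤ 2 * (sg S (s + j) * (Q (s + j + 1) * tau w (s + j + 1))) := by linarith
      _ = (2 * Q (s + j + 1)) * (sg S (s + j) * tau w (s + j + 1)) := by ring
      _ ≤ (((s + j : ℕ) + 1) * T (s + j + 2 + 1)) * (sg S (s + j) * tau w (s + j + 1)) :=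
          mul_le_mul_of_nonneg_right q1 (by positivity)
      _ = (((s + j : ℕ) + 1) * sg S (s + j)) * (T (s + j + 2 + 1) * tau w (s + j + 1)) := by ring
      _ ≤ sg S (s + j + 2) * (T (s + j + 2 + 1) * tau w (s + j + 1)) :=
          mul_le_mul_of_nonneg_right hpk (by positivity)
      _ < _ := by
          apply mul_lt_mul_of_pos_left _ (sg_pos hS _)
          exact mul_lt_mul_of_pos_left t1 tT
  refine ⟨?_, ?_, ga, ?_, ?_⟩
  · rw [← norm_pos_iff]
    rcases (show j = 0 ∨ j = 1 ∨ 2 ≤ j by omega) with hj | hj | hj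
    · have : ‖M‖ = sg S s * (T (s + 1) * tau w (s + 1)) := by
        have : M = sg S s * up (w - 1) (s + 1) := by simp [hM, Sm, hj]
        rw [this, norm_mul, Complex.norm_real, Real.norm_eq_abs, abs_of_pos hs0, x_eq]
      linarith
    · have : ‖N‖ = ‖M‖ := by
        have e : (-1 : ℂ) ^ (j + 1) = 1 := by rw [hj]; norm_num
        have : N = (-1 : ℂ) ^ (s + j + 1) * M := by rw [hB, e]; ring
        rw [this, n2]
      have h7 : 0 < sg S s * (‖up w (s + j + 1)‖ - ‖up w s‖) := mul_pos hs0 (by linarith)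
      linarith
    · have h6 : ‖up w (s + 3)‖ ≤ ‖up w (s + j + 1)‖ := (g_mono hw).monotone (by omega)
      have h7 : sg S s * (‖up w (s + 3)‖ - ‖up w s‖) ≤
          sg S s * (‖up w (s + j + 1)‖ - ‖up w s‖) :=
        mul_le_mul_of_nonneg_left (by linarith) hs0.le
      linarith
  · rw [hA, ← B_peak S (-w) (n := s + j + 1) hm]
  · refine ga.le.trans ?_
    apply mul_le_mul_of_nonneg_left _ (sg_pos hS _).le
    apply mul_le_mul_of_nonneg_right _ (tau_pos hw _).le
    unfold Q T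
    have hn : (0 : ℝ) ≤ (s + j : ℕ) := by positivity
    push_cast at hn ⊢
    set x : ℝ := s + j
    nlinarith [mul_nonneg hn hn, mul_nonneg hn (mul_nonneg hn hn)]
  · have h5 := g_gap hw (s + j)
    have h6 : 0 < ‖up w (s + j + 2 + 3)‖ - ‖up w (s + j + 2)‖ :=
      sub_pos.mpr (g_mono hw (by omega))
    have h7 := mul_le_mul_of_nonneg_right hpk h6.le
    have h8 := mul_lt_mul_of_pos_left h5 hs1
    nlinarith

lemma left_all (hS : ∀ i ∈ S, 2 ≤ i ∧ i + 1 ∉ S) (hw : 3 < w.re) :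
    ∀ m, m ∈ S → B S (-w) m ≠ 0 ∧ Good S w m := by
  intro m
  induction m using Nat.strong_induction_on with
  | _ m ih =>
    intro hm
    obtain ⟨s, hs1, hs2, hs3⟩ : ∃ s, s + 2 ≤ m ∧ Good S w s ∧ ∀ k, s < k → k < m → k ∉ S := by
      by_cases hne : (S.filter (· < m)).Nonempty
      · have h1 := (S.filter (· < m)).max'_mem hne
        set s := (S.filter (· < m)).max' hne
        rw [mem_filter] at h1
        refine ⟨s, ?_, (ih s h1.2 h1.1).2, ?_⟩
        · have h2 := h1.2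
          by_contra h3
          have : m = s + 1 := by omega
          exact (hS s h1.1).2 (this ▸ hm)
        · intro k hk1 hk2 hk3
          have := (S.filter (· < m)).le_max' k (mem_filter.mpr ⟨hk3, hk2⟩)
          omega
      · refine ⟨0, (hS m hm).1, good_zero hw, ?_⟩
        intro k _ hk2 hk3
        exact hne ⟨k, mem_filter.mpr ⟨hk3, hk2⟩⟩
    obtain ⟨j, rfl⟩ : ∃ j, m = s + j + 2 := ⟨m - s - 2, by omega⟩
    exact run_step hS hw s j (fun i hi => hs3 _ (by omega) (by omega)) hm hs2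

end Left

theorem roots (hS : ∀ i ∈ S, 2 ≤ i ∧ i + 1 ∉ S) {m : ℕ} (hm : m ∈ S) {z : ℂ}
    (hz : B S z m = 0) : ‖z‖ ≤ m ∧ -3 ≤ z.re := by
  constructor
  · by_contra h
    obtain ⟨n, rfl⟩ : ∃ n, m = n + 2 := ⟨m - 2, by have := (hS m hm).1; omega⟩
    push_cast at h
    exact outer hS hm (not_le.mp h) hz
  · by_contra h
    have hw : 3 < (-z).re := by simp; linarith
    have := (left_all hS hw m hm).1
    rw [neg_neg] at this
    exact this hz

end Pool.Agent.H983Z.Peak
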